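import Pool.Agent.helper77.BND.SpecB

/-!
# Project bnd, row BRS: every nonnegative vector with the band condition is a rank vector
-/

set_option autoImplicit false

open scoped Topology Matrix
open Filter Finset

namespace Pool.Agent.BND

open Pool.Agent.CZ Pool.Agent.PV

/-- the diagonal 0-1 matrix at a vertex -/
noncomputable def BRS_D (r : ℕ) (h : ℕ → ℕ) (z : ℕ → ℤ) (a b : Fin r) (v p q : ℕ) : ℂ :=
  if a = b ∧ p = 0 ∧ q = 0 ∧ ((a : ℕ) : ℤ) < z v ∧ 0 < h v then 1 else 0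

lemma BRS_D_mul (r : ℕ) (h : ℕ → ℕ) (z : ℕ → ℤ) (a a' : Fin r) (v p q : ℕ) :
    ∑ b : Fin r, ∑ k ∈ range (h v), BRS_D r h z a b v p k * BRS_D r h z b a' v k q = BRS_D r h z a a' v p q := by
  by_cases hv : 0 < h v
  · rw [Finset.sum_eq_single a, Finset.sum_eq_single 0]
    · unfold BRS_D
      by_cases h1 : a = a' ∧ p = 0 ∧ q = 0 ∧ ((a : ℕ) : ℤ) < z v ∧ 0 < h v
      · rw [if_pos h1, if_pos ⟨rfl, h1.2.1, rfl, h1.2.2.2⟩, if_pos ⟨h1.1, rfl, h1.2.2⟩, one_mul]
      · rw [if_neg h1]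
        by_cases h2 : a = a ∧ p = 0 ∧ (0 : ℕ) = 0 ∧ ((a : ℕ) : ℤ) < z v ∧ 0 < h v
        · by_cases h3 : a = a' ∧ (0 : ℕ) = 0 ∧ q = 0 ∧ ((a : ℕ) : ℤ) < z v ∧ 0 < h v
          · exact absurd ⟨h3.1, h2.2.1, h3.2.2⟩ h1
          · rw [if_neg h3, mul_zero]
        · rw [if_neg h2, zero_mul]
    · intro k _ hk
      unfold BRS_D
      rw [if_neg (fun h1 => hk h1.2.2.1), zero_mul]
    · intro h1
      exact absurd (Finset.mem_range.2 hv) h1
    · intro b _ hb
      refine Finset.sum_eq_zero (fun k _ => ?_)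
      unfold BRS_D
      rw [if_neg (fun h1 => hb h1.1.symm), zero_mul]
    · intro h1
      exact absurd (Finset.mem_univ a) h1
  · have h0 : h v = 0 := by omega
    rw [h0, Finset.range_zero]
    unfold BRS_D
    rw [if_neg (fun h1 => hv h1.2.2.2.2)]
    simp

lemma BRS_D_tr (r : ℕ) (h : ℕ → ℕ) (z : ℕ → ℤ) (v : ℕ) (hv : 0 < h v) (hz0 : 0 ≤ z v) (hzr : z v ≤ r) :
    ∑ a : Fin r, ∑ i ∈ range (h v), BRS_D r h z a a v i i = ((z v : ℤ) : ℂ) := by
  obtain ⟨k, hk⟩ := Int.eq_ofNat_of_zero_le hz0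
  have h1 : ∀ a : Fin r, ∑ i ∈ range (h v), BRS_D r h z a a v i i = if (a : ℕ) < k then (1 : ℂ) else 0 := by
    intro a
    rw [Finset.sum_eq_single 0]
    · unfold BRS_D
      by_cases h2 : (a : ℕ) < k
      · rw [if_pos h2, if_pos ⟨rfl, rfl, rfl, by rw [hk]; exact_mod_cast h2, hv⟩]
      · rw [if_neg h2, if_neg]
        rintro ⟨-, -, -, h3, -⟩
        rw [hk] at h3
        exact h2 (by exact_mod_cast h3)
    · intro i _ hi
      unfold BRS_D
      rw [if_neg (fun h2 => hi h2.2.1)]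
    · intro h2
      exact absurd (Finset.mem_range.2 hv) h2
  rw [Finset.sum_congr rfl (fun a _ => h1 a), Fin.sum_univ_eq_sum_range (fun a => if a < k then (1 : ℂ) else 0) r,
    Finset.sum_boole]
  have h3 : (range r).filter (fun a => a < k) = range k := by
    ext a
    rw [Finset.mem_filter, Finset.mem_range, Finset.mem_range]
    have : k ≤ r := by
      rw [hk] at hzr
      exact_mod_cast hzr
    omega
  rw [h3, Finset.card_range, hk]
  push_cast
  rfl

lemma BRS_fl_mem (h : ℕ → ℕ) (u : List ℕ) (i : ℕ) (hi : i < (u.map h).sum) : (fl h u i).1 ∈ u := by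
  induction u generalizing i with
  | nil => simp at hi
  | cons a u ih =>
    unfold fl
    by_cases h1 : i < h a
    · rw [if_pos h1]
      exact List.mem_cons_self
    · rw [if_neg h1]
      refine List.mem_cons_of_mem _ (ih _ ?_)
      rw [List.map_cons, List.sum_cons] at hi
      omega

lemma BRS_bd_congr (h : ℕ → ℕ) (u : List ℕ) (x y : ℕ → ℕ → ℕ → ℂ) (i j : ℕ) (hi : i < (u.map h).sum)
    (hxy : ∀ v ∈ u, ∀ p q, x v p q = y v p q) : bd h u x i j = bd h u y i j := by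
  unfold bd
  by_cases h1 : fp h u i = fp h u j
  · rw [if_pos h1, if_pos h1, hxy _ (BRS_fl_mem h u i hi)]
  · rw [if_neg h1, if_neg h1]

lemma BRS_bd_single (h : ℕ → ℕ) (e : ℕ) (x : ℕ → ℕ → ℕ → ℂ) (i j : ℕ) (hi : i < h e) (hj : j < h e) :
    bd h [e] x i j = x e i j := by
  unfold bd
  simp only [fp, fl, if_pos hi, if_pos hj, if_true]

lemma BRS_list_sum {κ : Type} [Fintype κ] (u : List ℕ) (f : κ → ℕ → ℂ) :
    ∑ a, (u.map (f a)).sum = (u.map fun v => ∑ a, f a v).sum := by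
  induction u with
  | nil => simp
  | cons v u ih =>
    simp only [List.map_cons, List.sum_cons]
    rw [Finset.sum_add_distrib, ih]

lemma BRS_list_cast (u : List ℕ) (z : ℕ → ℤ) : (u.map fun v => ((z v : ℤ) : ℂ)).sum = (((u.map z).sum : ℤ) : ℂ) := by
  induction u with
  | nil => simp
  | cons v u ih =>
    simp only [List.map_cons, List.sum_cons]
    rw [ih]
    push_cast
    rfl

/-- the idempotent at an end of a band -/
noncomputable def BRS_E (l : Lv) (r : ℕ) (z : ℕ → ℤ) (e : ℕ) (b : Bool) :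
    Matrix (Fin r × Fin (l.h e)) (Fin r × Fin (l.h e)) ℂ :=
  fun p q => bd l.h (l.W e b) (BRS_D r l.h z p.1 q.1) p.2 q.2

lemma BRS_E_idem (hBDM : BDM_stmt) (l : Lv) (hl : IsLv l) (r : ℕ) (z : ℕ → ℤ) (e : ℕ) (he : e < l.N) (b : Bool) :
    BRS_E l r z e b * BRS_E l r z e b = BRS_E l r z e b := by
  ext ⟨a, i⟩ ⟨a', j⟩
  have hs := hl.ht e he b
  have h1 := (hBDM l.h (l.W e b)).1 (Fin r) (fun c => BRS_D r l.h z a c) (fun c => BRS_D r l.h z c a') i j
    (by rw [hs]; exact i.2) (by rw [hs]; exact j.2)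
  rw [Matrix.mul_apply, Fintype.sum_prod_type]
  rw [hs] at h1
  have h2 : ∀ c : Fin r, ∑ k : Fin (l.h e), BRS_E l r z e b (a, i) (c, k) * BRS_E l r z e b (c, k) (a', j) =
      ∑ k ∈ range (l.h e), bd l.h (l.W e b) (BRS_D r l.h z a c) i k * bd l.h (l.W e b) (BRS_D r l.h z c a') k j := by
    intro c
    rw [Finset.sum_range]
    rfl
  rw [Finset.sum_congr rfl (fun c _ => h2 c), h1]
  show _ = bd l.h (l.W e b) (BRS_D r l.h z a a') i j
  have h3 : (fun v p q => ∑ c : Fin r, ∑ k ∈ range (l.h v), BRS_D r l.h z a c v p k * BRS_D r l.h z c a' v k q) =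
      BRS_D r l.h z a a' := by
    funext v p q
    exact BRS_D_mul r l.h z a a' v p q
  rw [h3]

lemma BRS_E_trace (hBDM : BDM_stmt) (l : Lv) (hl : IsLv l) (r : ℕ) (z : ℕ → ℤ) (hz0 : ∀ v, 0 ≤ z v)
    (hzr : ∀ v, v < l.n → z v ≤ r) (e : ℕ) (he : e < l.N) (b : Bool) :
    (BRS_E l r z e b).trace = ((((l.W e b).map z).sum : ℤ) : ℂ) := by
  have hs := hl.ht e he b
  rw [Matrix.trace, Fintype.sum_prod_type]
  have h1 : ∀ a : Fin r, ∑ i : Fin (l.h e), (BRS_E l r z e b).diag (a, i) =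
      ((l.W e b).map fun v => ∑ i ∈ range (l.h v), BRS_D r l.h z a a v i i).sum := by
    intro a
    rw [← (hBDM l.h (l.W e b)).2.1 (BRS_D r l.h z a a), hs, Finset.sum_range]
    rfl
  rw [Finset.sum_congr rfl (fun a _ => h1 a), BRS_list_sum, ← BRS_list_cast]
  congr 1
  refine List.map_congr_left (fun v hv => ?_)
  have hvn : v < l.n := hl.mem e he b v hv
  exact BRS_D_tr r l.h z v (hl.pos v (lt_of_lt_of_le hvn hl.nN)) (hz0 v) (hzr v hvn)

lemma BRS_path (hBIX : BIX_stmt) (hBDM : BDM_stmt) (l : Lv) (hl : IsLv l) (r : ℕ) (z : ℕ → ℤ) (hz0 : ∀ v, 0 ≤ z v)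
    (hzr : ∀ v, v < l.n → z v ≤ r)
    (hz : ∀ e, e < l.N → ((l.W e false).map z).sum = ((l.W e true).map z).sum) (e : ℕ) :
    ∃ P : C(unitInterval, Matrix (Fin r × Fin (l.h e)) (Fin r × Fin (l.h e)) ℂ), e < l.N →
      (∀ s, P s * P s = P s) ∧ P 0 = BRS_E l r z e false ∧ P 1 = BRS_E l r z e true := by
  classical
  by_cases he : e < l.N
  · obtain ⟨P, h1, h2, h3⟩ := hBIX (Fin r × Fin (l.h e)) (BRS_E l r z e false) (BRS_E l r z e true)
      (BRS_E_idem hBDM l hl r z e he false) (BRS_E_idem hBDM l hl r z e he true)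
      (by rw [BRS_E_trace hBDM l hl r z hz0 hzr e he, BRS_E_trace hBDM l hl r z hz0 hzr e he, hz e he])
    exact ⟨P, fun _ => ⟨h3, h1, h2⟩⟩
  · exact ⟨ContinuousMap.const _ 0, fun h => absurd h he⟩

/-- the family -/
noncomputable def BRS_G (l : Lv) (r : ℕ) (z : ℕ → ℤ)
    (P : ∀ e : ℕ, C(unitInterval, Matrix (Fin r × Fin (l.h e)) (Fin r × Fin (l.h e)) ℂ)) (a b : Fin r) (e : ℕ) (s : ℝ)
    (i j : ℕ) : ℂ :=
  if e < l.n then BRS_D r l.h z a b e i j else
    if h : i < l.h e ∧ j < l.h e then P e (Set.projIcc 0 1 zero_le_one s) (a, ⟨i, h.1⟩) (b, ⟨j, h.2⟩) else 0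

lemma BRS_fm (l : Lv) (hl : IsLv l) (r : ℕ) (z : ℕ → ℤ)
    (P : ∀ e : ℕ, C(unitInterval, Matrix (Fin r × Fin (l.h e)) (Fin r × Fin (l.h e)) ℂ))
    (hP : ∀ e, e < l.N → (∀ s, P e s * P e s = P e s) ∧ P e 0 = BRS_E l r z e false ∧ P e 1 = BRS_E l r z e true)
    (a b : Fin r) : IsFm l (BRS_G l r z P a b) := by
  refine ⟨?_, ?_, ?_⟩
  · intro e i j he hi hj
    by_cases hn : e < l.n
    · simp only [BRS_G, if_pos hn]
      exact continuousOn_const
    · simp only [BRS_G, if_neg hn, dif_pos (And.intro hi hj)]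
      refine Continuous.continuousOn ?_
      exact ((P e).continuous.comp continuous_projIcc).matrix_elem _ _
  · intro e s i j he _ _ _
    simp only [BRS_G, if_pos he]
  · intro e i j c he hi hj
    by_cases hn : e < l.n
    · rw [hl.vtx e hn c, BRS_bd_single l.h e _ i j hi hj]
      simp only [BRS_G, if_pos hn]
    · have h1 : bd l.h (l.W e c) (fun v => BRS_G l r z P a b v 0) i j =
          bd l.h (l.W e c) (BRS_D r l.h z a b) i j := by
        refine BRS_bd_congr _ _ _ _ _ _ (by rw [hl.ht e he c]; exact hi) ?_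
        intro v hv p q
        simp only [BRS_G, if_pos (hl.mem e he c v hv)]
      rw [h1]
      have h2 : BRS_G l r z P a b e (if c then 1 else 0) i j =
          P e (Set.projIcc 0 1 zero_le_one (if c then 1 else 0)) (a, ⟨i, hi⟩) (b, ⟨j, hj⟩) := by
        simp only [BRS_G, if_neg hn, dif_pos (And.intro hi hj)]
      rw [h2]
      cases c with
      | false =>
        have h3 : (Set.projIcc (0 : ℝ) 1 zero_le_one (if (false : Bool) = true then 1 else 0)) = 0 := by
          rw [if_neg (by decide)]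
          exact Set.projIcc_left (zero_le_one (α := ℝ))
        rw [h3, (hP e he).2.1]
        rfl
      | true =>
        have h3 : (Set.projIcc (0 : ℝ) 1 zero_le_one (if (true : Bool) = true then 1 else 0)) = 1 := by
          rw [if_pos rfl]
          exact Set.projIcc_right (zero_le_one (α := ℝ))
        rw [h3, (hP e he).2.2]
        rfl

lemma BRS_idem (l : Lv) (r : ℕ) (z : ℕ → ℤ)
    (P : ∀ e : ℕ, C(unitInterval, Matrix (Fin r × Fin (l.h e)) (Fin r × Fin (l.h e)) ℂ))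
    (hP : ∀ e, e < l.N → (∀ s, P e s * P e s = P e s) ∧ P e 0 = BRS_E l r z e false ∧ P e 1 = BRS_E l r z e true)
    (a b : Fin r) (e : ℕ) (s : ℝ) (i j : ℕ) (he : e < l.N) (hi : i < l.h e) (hj : j < l.h e) :
    ∑ c : Fin r, ∑ k ∈ range (l.h e), BRS_G l r z P a c e s i k * BRS_G l r z P c b e s k j =
      BRS_G l r z P a b e s i j := by
  by_cases hn : e < l.n
  · simp only [BRS_G, if_pos hn]
    exact BRS_D_mul r l.h z a b e i j
  · have h1 := congrFun (congrFun ((hP e he).1 (Set.projIcc 0 1 zero_le_one s)) (a, ⟨i, hi⟩)) (b, ⟨j, hj⟩)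
    rw [Matrix.mul_apply, Fintype.sum_prod_type] at h1
    have h2 : BRS_G l r z P a b e s i j =
          P e (Set.projIcc 0 1 zero_le_one s) (a, ⟨i, hi⟩) (b, ⟨j, hj⟩) := by
      simp only [BRS_G, if_neg hn, dif_pos (And.intro hi hj)]
    rw [h2, ← h1]
    refine Finset.sum_congr rfl (fun c _ => ?_)
    rw [Finset.sum_range]
    refine Finset.sum_congr rfl (fun k _ => ?_)
    simp only [BRS_G, if_neg hn, dif_pos (And.intro hi k.2), dif_pos (And.intro k.2 hj)]

theorem BRS (hBIX : BIX_stmt) (hBDM : BDM_stmt) (hBFX : BFX_stmt) (_hBFG : BFG_stmt) (hBFE : BFE_stmt)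
    (hBFA : BFA_stmt) (hBFM : BFM_stmt) : BRS_stmt := by
  intro B M _ α A _ ι u c hC S hS m R hR z hz0 hz
  have hl : IsLv (B.L m) := hC.bs.lv m
  set r : ℕ := ∑ v ∈ range (B.L m).n, (z v).toNat with hr
  have hzr : ∀ v, v < (B.L m).n → z v ≤ r := by
    intro v hv
    have h1 : (z v).toNat ≤ r := Finset.single_le_sum (f := fun v => (z v).toNat) (fun _ _ => Nat.zero_le _)
      (Finset.mem_range.2 hv)
    have h2 := Int.self_le_toNat (z v)
    have h3 : ((z v).toNat : ℤ) ≤ r := by exact_mod_cast h1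
    exact h2.trans h3
  choose P hP using BRS_path hBIX hBDM (B.L m) hl r z hz0 hzr hz
  have hfm := BRS_fm (B.L m) hl r z P hP
  have hex : ∀ a b : Fin r, ∃ x : A, InS B ι u c m x ∧ Fam B c m x (BRS_G (B.L m) r z P a b) :=
    fun a b => hBFX B M α A ι u c hC m _ (hfm a b)
  choose E hE1 hE2 using hex
  obtain ⟨⟨hone, honef⟩, hadd, hsmul⟩ := hBFA B M α A ι u c hC m
  -- finite sums
  have hsum : ∀ (a b : Fin r) (T : Finset (Fin r)),
      InS B ι u c m (∑ k ∈ T, E a k * E k b) ∧ Fam B c m (∑ k ∈ T, E a k * E k b) (fun e s i j =>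
        ∑ k ∈ T, ∑ t ∈ range ((B.L m).h e), BRS_G (B.L m) r z P a k e s i t * BRS_G (B.L m) r z P k b e s t j) := by
    intro a b T
    classical
    induction T using Finset.induction_on with
    | empty =>
      obtain ⟨h1, h2⟩ := hsmul 0 1 _ hone honef
      rw [zero_smul] at h1 h2
      rw [Finset.sum_empty]
      refine ⟨h1, ?_⟩
      simp only [zero_mul] at h2
      simp only [Finset.sum_empty]
      exact h2
    | insert k T hk ih =>
      obtain ⟨h1, h2⟩ := hBFM B M α A ι u c hC m (E a k) (E k b) _ _ (hE1 a k) (hE1 k b) (hfm a k) (hfm k b)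
        (hE2 a k) (hE2 k b)
      rw [Finset.sum_insert hk]
      obtain ⟨h3, h4⟩ := hadd _ _ _ _ h1 ih.1 h2 ih.2
      refine ⟨h3, ?_⟩
      simp only [Finset.sum_insert hk]
      exact h4
  set F : Matrix (Fin r) (Fin r) (S m) := fun a b => ⟨E a b, (hS.mem m _).2 (hE1 a b)⟩ with hF
  have hFF : F * F = F := by
    ext a b
    rw [Matrix.mul_apply]
    have h1 : ((∑ k, F a k * F k b : S m) : A) = ∑ k, E a k * E k b := by
      rw [AddSubmonoidClass.coe_finsetSum]
      rfl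
    rw [h1]
    show _ = E a b
    refine (hBFE B M α A ι u c hC m _ _ _ _ (hsum a b Finset.univ).1 (hE1 a b) (hsum a b Finset.univ).2
      (hE2 a b)).2 ?_
    intro e s i j he _ hi hj
    exact BRS_idem (B.L m) r z P hP a b e s i j he hi hj
  refine ⟨k0 F hFF, fun v hv => ?_⟩
  have hvN : v < (B.L m).N := lt_of_lt_of_le hv hl.nN
  have h1 := hR.1 (Fin r) F hFF (fun a b => BRS_G (B.L m) r z P a b) (fun a b => hE2 a b) v 0 hvN
    ⟨le_rfl, zero_le_one⟩
  rw [hl.vtx v hv false] at h1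
  simp only [BRS_G, if_pos hv, List.map_cons, List.map_nil, List.sum_cons, List.sum_nil, add_zero] at h1
  rw [BRS_D_tr r (B.L m).h z v (hl.pos v hvN) (hz0 v) (hzr v hv)] at h1
  exact_mod_cast h1.symm

end Pool.Agent.BND
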