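import Pool.Agent.helper77.BND.SpecF

/-!
# Project bnd, row FAS: adding the summands `S` and `G'`
-/

set_option autoImplicit false

open scoped Topology Matrix
open Filter Finset

namespace Pool.Agent.BND

open Pool.Agent.CZ Pool.Agent.PV Pool.Agent.PVH

theorem FAS_split {G₀ : Type} [AddCommGroup G₀] (H S : AddSubgroup G₀) (hHS : IsCompl H S) (x : G₀) :
    ∃ h ∈ H, ∃ s ∈ S, h + s = x := by
  have h1 : x ∈ H ⊔ S := by
    rw [hHS.sup_eq_top]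
    exact AddSubgroup.mem_top x
  obtain ⟨h, hh, s, hs, e⟩ := AddSubgroup.mem_sup.1 h1
  exact ⟨h, hh, s, hs, e⟩

theorem FAS_equiv {G₀ : Type} [AddCommGroup G₀] (H S : AddSubgroup G₀) (hHS : IsCompl H S) :
    ∃ f : (H × S) ≃+ G₀, ∀ x : H × S, f x = (x.1 : G₀) + (x.2 : G₀) := by
  refine ⟨AddEquiv.ofBijective (AddMonoidHom.coprod H.subtype S.subtype) ⟨?_, ?_⟩, fun x => rfl⟩
  · rw [injective_iff_map_eq_zero]
    rintro ⟨⟨h, hh⟩, ⟨s, hs⟩⟩ he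
    have he' : h + s = 0 := he
    have h1 : h = -s := eq_neg_of_add_eq_zero_left he'
    have h2 : h ∈ H ⊓ S := ⟨hh, by rw [h1]; exact S.neg_mem hs⟩
    rw [hHS.inf_eq_bot, AddSubgroup.mem_bot] at h2
    subst h2
    have h3 : s = 0 := by rwa [zero_add] at he'
    subst h3
    rfl
  · intro x
    obtain ⟨h, hh, s, hs, e⟩ := FAS_split H S hHS x
    exact ⟨(⟨h, hh⟩, ⟨s, hs⟩), e⟩

theorem FAS (hKSC : KSC_stmt) (hKHI : KHI_stmt) : FAS_stmt := by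
  intro G₀ _ _ g E _ _ _ K ρ H S hHS hg hS J G' _ _ _ hocc
  obtain ⟨X₀, i1, i2, i3, i4, α₀, hα₀, hsb₀, A₀, i5, ι₀, u₀, hcp₀, hI₀⟩ := hocc
  obtain ⟨X, j1, j2, j3, j4, α, π, hα, hsb, -, -, -, A, j5, ι, u, hcp, -, hI⟩ :=
    hKSC X₀ α₀ hα₀ A₀ ι₀ u₀ hcp₀ S G'
  have hInv := hI H (⟨g, hg⟩ : H) J E K (ρ.comp H.subtype) hI₀
  obtain ⟨f, hf⟩ := FAS_equiv H S hHS
  have hfin := hKHI A (H × S) _ (J × G') E K _ hInv G₀ (J × G') f (AddEquiv.refl _) ρ (by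
    intro x
    rw [hf, map_add, hS _ x.2.2, add_zero]
    rfl)
  have hfg : f ((⟨g, hg⟩, 0) : H × S) = g := by
    rw [hf]
    exact add_zero g
  rw [hfg] at hfin
  exact ⟨X, j1, j2, j3, j4, α, hα, hsb hsb₀, A, j5, ι, u, hcp, hfin⟩

end Pool.Agent.BND
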