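import Pool.Agent.helper53.BND.SpecL

/-!
# Project bnd, row LST: on the next level there are logarithms of the determinants without winding numbers
-/

set_option autoImplicit false

open scoped Topology Matrix
open Filter Finset

namespace Pool.Agent.BND

open Pool.Agent.CZ Pool.Agent.PV

lemma LST_congr (l : Lv) (lam : ℕ → ℝ → ℂ) (nn nn' : ℕ → ℤ) (h : IsLog l lam nn) (hn : ∀ e, e < l.N → nn e = nn' e) :
    IsLog l lam nn' :=
  ⟨h.cts, h.vtx, h.at0, fun e he => by rw [← hn e he]; exact h.at1 e he⟩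

theorem LST (hLGX : LGX_stmt) (hLLG : LLG_stmt) (hLNZ : LNZ_stmt) (hLDU : LDU_stmt) : LST_stmt := by
  intro B M _ α A _ ι u c hC S hS Gs hB1 m κ _ _ g h
  have hl : IsLv (B.L m) := hC.bs.lv m
  have hl' : IsLv (B.L (m + 1)) := hC.bs.lv (m + 1)
  obtain ⟨G, hG1, hG2⟩ := hLGX B M α A ι u c hC S hS m κ g
  obtain ⟨lam, nn, h1, h2⟩ := hLLG (B.L m) hl κ G hG1
  obtain ⟨z, hz⟩ := hB1.bas m nn
  obtain ⟨lam1, h3, h4⟩ := hLNZ (B.L m) hl lam nn h1 z
  obtain ⟨Lam, nn', h5, h6, -, h8⟩ := hB1.lft m lam1 _ h3 (by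
    intro e he
    have := hz e he
    omega)
  obtain ⟨G'', hG3, hG4⟩ := hLGX B M α A ι u c hC S hS (m + 1) κ (umap (Subalgebra.inclusion h).toRingHom g)
  obtain ⟨z', hz'⟩ := hB1.bas (m + 1) nn'
  obtain ⟨Lam', h9, h10⟩ := hLNZ (B.L (m + 1)) hl' Lam nn' h5 z'
  refine ⟨G'', Lam', hG3, hG4, LST_congr _ _ _ _ h9 ?_, ?_⟩
  · intro e he
    by_cases hG : e ∈ Gs (m + 1)
    · have := hz' e hG
      omega
    · have h11 := h6 e he hG
      have h12 := ((hB1.prm (m + 1) e he hG).map z').sum_eq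
      omega
  · intro e s he hs
    have h11 := hLDU B M α A ι u c hC m κ (fun a b => ((g : Matrix κ κ (S m)) a b : A)) G G''
      (fun a b => hG2 a b) (fun a b => hG4 a b) e s he hs
    rw [h11, h10, h8 e he s hs]
    unfold sw
    rw [Complex.exp_list_sum, List.map_map]
    refine congrArg List.prod (List.map_congr_left (fun q hq => ?_))
    obtain ⟨hq1, hq2⟩ := hC.bs.lett m e s he hs q hq
    rw [h2 q.1 q.2 hq1 hq2, ← h4]
    rfl

end Pool.Agent.BND
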