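import Pool.Agent.helper77.BND.SpecB

/-!
# Project bnd, row SUZ: the powers of the homeomorphism along the floors of a letter
-/

set_option autoImplicit false

open scoped Topology Matrix
open Filter Finset

namespace Pool.Agent.BND

open Pool.Agent.CZ Pool.Agent.PV

lemma SUZ_up (hSUC : SUC_stmt) (B : BS) (M : ℕ → ℕ → ℕ → ℕ) (hB : IsBS B M) (α : ↥(XS B) ≃ₜ ↥(XS B))
    (hα : IsAl B α) (hα' : IsAlI B α) (x : ↥(XS B)) (m e : ℕ) (s : ℝ) (i : ℕ) (hc : Can (B.L m) e s)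
    (hx : x.1 m = emb (B.L m) e s i) (k : ℕ) (hk : i + k < (B.L m).h e) :
    ((α ^ k) x).1 m = emb (B.L m) e s (i + k) := by
  induction k with
  | zero => rw [pow_zero, add_zero]; exact hx
  | succ k ih =>
    have h1 := ih (by omega)
    have h2 := (hSUC B M hB α hα hα' ((α ^ k) x) m e s (i + k) hc (by omega) h1).1 (by omega)
    rw [pow_succ']
    exact h2

lemma SUZ_dn (hSUC : SUC_stmt) (B : BS) (M : ℕ → ℕ → ℕ → ℕ) (hB : IsBS B M) (α : ↥(XS B) ≃ₜ ↥(XS B))
    (hα : IsAl B α) (hα' : IsAlI B α) (x : ↥(XS B)) (m e : ℕ) (s : ℝ) (i : ℕ) (hc : Can (B.L m) e s)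
    (hi : i < (B.L m).h e) (hx : x.1 m = emb (B.L m) e s i) (k : ℕ) (hk : k ≤ i) :
    ((α⁻¹ ^ k) x).1 m = emb (B.L m) e s (i - k) := by
  induction k with
  | zero => rw [pow_zero, Nat.sub_zero]; exact hx
  | succ k ih =>
    have h1 := ih (by omega)
    have h2 := (hSUC B M hB α hα hα' ((α⁻¹ ^ k) x) m e s (i - k) hc (by omega) h1).2.2 (by omega)
    rw [pow_succ', Nat.sub_add_eq]
    exact h2

theorem SUZ (hSUC : SUC_stmt) : SUZ_stmt := by
  intro B M hB α hα hα' x m e s i hc hi hx n hn1 hn2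
  rcases le_total 0 n with h | h
  · obtain ⟨k, rfl⟩ := Int.eq_ofNat_of_zero_le h
    have h1 := SUZ_dn hSUC B M hB α hα hα' x m e s i hc hi hx k (by omega)
    have h2 : ((i : ℤ) - (k : ℤ)).toNat = i - k := by omega
    rw [h2, zpow_neg, zpow_natCast, ← inv_pow]
    exact h1
  · obtain ⟨k, hk⟩ := Int.eq_ofNat_of_zero_le (show 0 ≤ -n by omega)
    have h1 := SUZ_up hSUC B M hB α hα hα' x m e s i hc hx k (by omega)
    have h2 : ((i : ℤ) - n).toNat = i + k := by omega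
    rw [h2, hk, zpow_natCast]
    exact h1

end Pool.Agent.BND
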