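import Pool.Agent.helper77.BND.SpecY

/-!
# Project bnd, row YNG: a class in `K₁(C(X))` is represented by a matrix which is trivial near two points
-/

set_option autoImplicit false

open scoped Topology Matrix
open Filter

namespace Pool.Agent.BND

open Pool.Agent.CZ Pool.Agent.PV

theorem YNG (hYN1 : YN1_stmt) (hK1G : K1G_stmt) (hK1M : K1M_stmt) : YNG_stmt := by
  intro X _ _ _ p q hpq y
  obtain ⟨n, g, hg⟩ := hK1G C(X, ℂ) y
  obtain ⟨U, V, hU, hV, hpU, hqV, hUV⟩ := t2_separation hpq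
  obtain ⟨g₂, h1, h2, -⟩ := hYN1 X p U hU hpU (Fin n) g
  obtain ⟨g₃, h4, h5, h6⟩ := hYN1 X q V hV hqV (Fin n) g₂
  refine ⟨n, g₃, ?_, ?_, h5⟩
  · rw [hg, (hK1M C(X, ℂ) (Fin n) g g₂).2.2.2 h1, (hK1M C(X, ℂ) (Fin n) g₂ g₃).2.2.2 h4]
  · have h7 : ∀ᶠ x in 𝓝 p, x ∈ U := hU.mem_nhds hpU
    filter_upwards [h7, h2] with x hxU hx i j
    have hxV : x ∉ V := fun hxV => (Set.disjoint_left.1 hUV hxU) hxV
    rw [h6 x hxV i j]
    exact hx i j

end Pool.Agent.BND
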